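import Mathlib

/-! Filtration of the automorphism group of a group by the lower central series of its
derived subgroup. -/

set_option autoImplicit false

namespace Pool.Agent.MP_6c678b_al.Nil

open scoped commutatorElement

variable {G : Type*} [Group G]

/-- The lower central series of the derived subgroup. -/
abbrev D (G : Type*) [Group G] (i : ℕ) : Subgroup G := (commutator G).lowerCentralSeries i

theorem D_succ (i : ℕ) : D G (i + 1) = ⁅D G i, D G 0⁆ := rfl

theorem D_succ_le (i : ℕ) : D G (i + 1) ≤ D G i :=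
  (commutator G).lowerCentralSeries_antitone (Nat.le_succ i)

theorem D_le_zero (i : ℕ) : D G i ≤ D G 0 :=
  (commutator G).lowerCentralSeries_antitone (Nat.zero_le i)

theorem mem_iff_mk (H : Subgroup G) [H.Normal] (x y : G) :
    x * y⁻¹ ∈ H ↔ QuotientGroup.mk' H x = QuotientGroup.mk' H y := by
  rw [← mul_inv_eq_one, ← map_inv, ← map_mul, QuotientGroup.mk'_apply, QuotientGroup.eq_one_iff]

theorem comm_mk {i : ℕ} {d t : G} (hd : d ∈ D G i) (ht : t ∈ D G 0) :
    Commute (QuotientGroup.mk' (D G (i + 1)) d) (QuotientGroup.mk' (D G (i + 1)) t) := by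
  rw [← commutatorElement_eq_one_iff_commute, ← map_commutatorElement, QuotientGroup.mk'_apply,
    QuotientGroup.eq_one_iff]
  exact Subgroup.commutator_mem_commutator hd ht

theorem commutator_mul_central {Q : Type*} [Group Q] {d e s t : Q} (h1 : Commute d s)
    (h2 : Commute d t) (h3 : Commute d e) (h4 : Commute e s) (h5 : Commute e t) :
    ⁅d * s, e * t⁆ = ⁅s, t⁆ := by
  have e1 : d * s * (e * t) = d * e * (s * t) := by
    rw [mul_assoc d s, ← mul_assoc s e, ← h4.eq]; simp only [mul_assoc]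
  have e2 : e * t * (d * s) = d * e * (t * s) := by
    rw [mul_assoc e t, ← mul_assoc t d, ← h2.eq, h3.eq]; simp only [mul_assoc]
  have hc : Commute (d * e) ((s * t) * (t * s)⁻¹) :=
    ((h1.mul_right h2).mul_right (h2.mul_right h1).inv_right).mul_left
      ((h4.mul_right h5).mul_right (h5.mul_right h4).inv_right)
  calc ⁅d * s, e * t⁆ = (d * s * (e * t)) * (e * t * (d * s))⁻¹ := by
        rw [commutatorElement_def]; group
    _ = (d * e) * ((s * t) * (t * s)⁻¹) * (d * e)⁻¹ := by rw [e1, e2]; group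
    _ = ⁅s, t⁆ := by rw [hc.eq, commutatorElement_def]; group

theorem le_of_gen (φ : G →* G) (H P Q : Subgroup G) [H.Normal]
    (h : ∀ s ∈ P, ∀ t ∈ Q, QuotientGroup.mk' H (φ ⁅s, t⁆) = QuotientGroup.mk' H ⁅s, t⁆) :
    ∀ v ∈ ⁅P, Q⁆, φ v * v⁻¹ ∈ H := by
  intro v hv
  rw [mem_iff_mk]
  have : ⁅P, Q⁆ ≤ ((QuotientGroup.mk' H).comp φ).eqLocus (QuotientGroup.mk' H) :=
    Subgroup.commutator_le.2 h
  exact this hv

theorem lemB (φ : G →* G) (i : ℕ) (h : ∀ t ∈ D G 0, φ t * t⁻¹ ∈ D G i) :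
    ∀ v ∈ D G 1, φ v * v⁻¹ ∈ D G (i + 1) := by
  apply le_of_gen
  intro s hs t ht
  have e1 : φ s = (φ s * s⁻¹) * s := by group
  have e2 : φ t = (φ t * t⁻¹) * t := by group
  rw [map_commutatorElement, map_commutatorElement, map_commutatorElement, e1, e2, map_mul,
    map_mul _ (φ t * t⁻¹)]
  exact commutator_mul_central (comm_mk (h s hs) hs) (comm_mk (h s hs) ht)
    (comm_mk (h s hs) (D_le_zero i (h t ht))) (comm_mk (h t ht) hs) (comm_mk (h t ht) ht)

theorem comm_mk_two {j : ℕ} {d t : G} (hd : d ∈ D G j) (ht : t ∈ D G 1) :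
    Commute (QuotientGroup.mk' (D G (j + 2)) d) (QuotientGroup.mk' (D G (j + 2)) t) := by
  rw [← commutatorElement_eq_one_iff_commute, ← map_commutatorElement, QuotientGroup.mk'_apply,
    QuotientGroup.eq_one_iff]
  have := lemB (MulAut.conj d).toMonoidHom (j + 1)
    (fun t ht => Subgroup.commutator_mem_commutator (H₁ := D G j) (H₂ := D G 0) hd ht) t ht
  exact this

theorem conj_commutator_left {Q : Type*} [Group Q] {d e s t : Q} (h1 : Commute d s)
    (h2 : Commute d t) (h3 : Commute d e) (h4 : Commute e s) (h5 : Commute e ⁅s, t⁆) :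
    ⁅d * s, e * t⁆ = ⁅s, t⁆ := by
  have a1 : ⁅d * s, e * t⁆ = ⁅s, e * t⁆ := by
    have := commutator_mul_central (d := d) (e := 1) (s := s) (t := e * t) h1 (h3.mul_right h2)
      (Commute.one_right _) (Commute.one_left _) (Commute.one_left _)
    rwa [one_mul] at this
  rw [a1]
  calc ⁅s, e * t⁆ = (s * e) * (t * s⁻¹ * t⁻¹ * e⁻¹) := by rw [commutatorElement_def]; group
    _ = e * ⁅s, t⁆ * e⁻¹ := by rw [← h4.eq, commutatorElement_def]; group
    _ = ⁅s, t⁆ := by rw [h5.eq]; group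

theorem act_triv (ψ : G →* G) (h : ∀ x, ψ x * x⁻¹ ∈ D G 1) (j : ℕ) :
    ∀ d ∈ D G j, ψ d * d⁻¹ ∈ D G (j + 1) := by
  induction j with
  | zero => exact fun d _ => h d
  | succ j ih =>
    apply le_of_gen
    intro s hs t ht
    have e1 : ψ s = (ψ s * s⁻¹) * s := by group
    have e2 : ψ t = (ψ t * t⁻¹) * t := by group
    rw [map_commutatorElement, map_commutatorElement, map_commutatorElement, e1, e2, map_mul,
      map_mul _ (ψ t * t⁻¹)]
    refine conj_commutator_left (comm_mk (ih s hs) (D_le_zero j hs)) (comm_mk (ih s hs) ht)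
      (comm_mk (ih s hs) (D_le_zero 1 (h t))) (comm_mk_two hs (h t)).symm ?_
    rw [← map_commutatorElement]
    exact (comm_mk (i := j + 1) (Subgroup.commutator_mem_commutator hs ht)
      (D_le_zero 1 (h t))).symm

theorem filt_step (φ ψ : MulAut G) (i : ℕ) (hφ : ∀ x, φ x * x⁻¹ ∈ D G i)
    (hψ : ∀ x, ψ x * x⁻¹ ∈ D G 1) (x : G) : ⁅φ, ψ⁆ x * x⁻¹ ∈ D G (i + 1) := by
  have key : ∀ y, φ (ψ y) * (ψ (φ y))⁻¹ ∈ D G (i + 1) := by
    intro y
    rw [mem_iff_mk]
    have e1 : φ (ψ y) = φ (ψ y * y⁻¹) * (φ y * y⁻¹) * y := by simp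
    have e2 : ψ (φ y) = ψ (φ y * y⁻¹) * (ψ y * y⁻¹) * y := by simp
    have a1 := (mem_iff_mk _ _ _).1 (lemB φ.toMonoidHom i (fun t _ => hφ t) _ (hψ y))
    have a2 := (mem_iff_mk _ _ _).1 (act_triv ψ.toMonoidHom hψ i _ (hφ y))
    simp only [MulEquiv.toMonoidHom_eq_coe, MonoidHom.coe_coe] at a1 a2
    rw [e1, e2, map_mul, map_mul, map_mul _ _ y, map_mul _ (ψ (φ y * y⁻¹)), a1, a2,
      (comm_mk (hφ y) (D_le_zero 1 (hψ y))).eq]
  have := key ((ψ * φ)⁻¹ x)
  have e : ψ (φ ((ψ * φ)⁻¹ x)) = x := by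
    change ((ψ * φ) * (ψ * φ)⁻¹) x = x
    simp
  rw [e] at this
  have e' : ⁅φ, ψ⁆ = φ * ψ * (ψ * φ)⁻¹ := by rw [commutatorElement_def]; group
  rw [e']
  exact this

/-- The iterated commutator `[p, q, …, q]` with `c` copies of `q`. -/
def iter {H : Type*} [Group H] (p q : H) : ℕ → H
  | 0 => p
  | c + 1 => ⁅iter p q c, q⁆

theorem map_iter {H H' : Type*} [Group H] [Group H'] (f : H →* H') (p q : H) (c : ℕ) :
    f (iter p q c) = iter (f p) (f q) c := by
  induction c with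
  | zero => rfl
  | succ c ih => rw [iter, iter, map_commutatorElement, ih]

theorem iter_mem {H : Type*} [Group H] (S : Subgroup H) {p q : H} (hp : p ∈ S) (hq : q ∈ S)
    (c : ℕ) : iter p q c ∈ S := by
  induction c with
  | zero => exact hp
  | succ c ih =>
    rw [iter, commutatorElement_def]
    exact S.mul_mem (S.mul_mem (S.mul_mem ih hq) (S.inv_mem ih)) (S.inv_mem hq)

theorem iter_filt (φ ψ : MulAut G) (hφ : ∀ x, φ x * x⁻¹ ∈ D G 1)
    (hψ : ∀ x, ψ x * x⁻¹ ∈ D G 1) (c : ℕ) : ∀ x, iter φ ψ c x * x⁻¹ ∈ D G (c + 1) := by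
  induction c with
  | zero => exact hφ
  | succ c ih => exact filt_step _ _ _ ih hψ

theorem iter_inner (c : ℕ) (hc : D G (c + 1) = ⊥) (φ ψ : MulAut G)
    (hφ : ∃ g, ∀ x, φ x * (g * x * g⁻¹)⁻¹ ∈ D G 1)
    (hψ : ∃ g, ∀ x, ψ x * (g * x * g⁻¹)⁻¹ ∈ D G 1) :
    ∃ g, ∀ x, iter φ ψ c x = g * x * g⁻¹ := by
  obtain ⟨g₁, h₁⟩ := hφ
  obtain ⟨g₂, h₂⟩ := hψ
  have hN : (MulAut.conj : G →* MulAut G).range.Normal := ⟨by
    rintro _ ⟨g, rfl⟩ σ
    exact ⟨σ g, by ext x; simp⟩⟩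
  set ρ := QuotientGroup.mk' (MulAut.conj : G →* MulAut G).range
  have hρ : ∀ g, ρ (MulAut.conj g) = 1 := fun g => (QuotientGroup.eq_one_iff _).2 ⟨g, rfl⟩
  have red : ∀ (σ : MulAut G) (g : G), (∀ x, σ x * (g * x * g⁻¹)⁻¹ ∈ D G 1) →
      ∀ x, (σ * MulAut.conj g⁻¹) x * x⁻¹ ∈ D G 1 := by
    intro σ g h x
    have := h (g⁻¹ * x * g)
    have e : g * (g⁻¹ * x * g) * g⁻¹ = x := by group
    rw [e] at this
    simpa using this
  have h := iter_filt _ _ (red φ g₁ h₁) (red ψ g₂ h₂) c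
  have h1 : iter (φ * MulAut.conj g₁⁻¹) (ψ * MulAut.conj g₂⁻¹) c = 1 := by
    ext x
    have := h x
    rw [hc, Subgroup.mem_bot, mul_inv_eq_one] at this
    exact this
  have h2 : ρ (iter φ ψ c) = 1 := by
    have := congrArg ρ h1
    rwa [map_iter, map_mul, map_mul, hρ, hρ, mul_one, mul_one, map_one, ← map_iter] at this
  obtain ⟨g, hg⟩ := (QuotientGroup.eq_one_iff _).1 h2
  exact ⟨g, fun x => by rw [← hg]; simp⟩

end Pool.Agent.MP_6c678b_al.Nil
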