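import Pool.Agent.MP_6c678b_al.RkGroup

/-! Words in two matrices of size two lie in the span of `1, P, Q, PQ` with universal
coefficients; a deformation argument then transfers the trivial action to any finite ring. -/

set_option autoImplicit false

namespace Pool.Agent.MP_6c678b_al.Rk

open Pool.Agent.MP_6c678b_al.Nil
open scoped Matrix

section span

variable {T R : Type*} [CommRing T] [CommRing R]

/-- The combination `p₀ + p₁ P + p₂ Q + p₃ P Q`. -/
def cb (P Q : Matrix (Fin 2) (Fin 2) T) (p : Fin 4 → T) : Matrix (Fin 2) (Fin 2) T :=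
  p 0 • (1 : Matrix (Fin 2) (Fin 2) T) + p 1 • P + p 2 • Q + p 3 • (P * Q)

theorem cb_P (P Q : Matrix (Fin 2) (Fin 2) T) (c d : T) (p : Fin 4 → T) :
    (c • (1 : Matrix (Fin 2) (Fin 2) T) + d • P) * cb P Q p =
      cb P Q ![c * p 0 - d * (P.det * p 1), c * p 1 + d * (p 0 + P.trace * p 1),
        c * p 2 - d * (P.det * p 3), c * p 3 + d * (p 2 + P.trace * p 3)] := by
  ext i j
  fin_cases i <;> fin_cases j <;>
    simp [cb, Matrix.mul_apply, Fin.sum_univ_two, Matrix.det_fin_two, Matrix.trace_fin_two] <;>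
    ring

theorem cb_Q (P Q : Matrix (Fin 2) (Fin 2) T) (c d : T) (p : Fin 4 → T) :
    (c • (1 : Matrix (Fin 2) (Fin 2) T) + d • Q) * cb P Q p =
      cb P Q ![c * p 0 + d * (p 1 * ((P * Q).trace - P.trace * Q.trace) - p 2 * Q.det -
          p 3 * P.trace * Q.det), c * p 1 + d * (p 1 * Q.trace + p 3 * Q.det),
        c * p 2 + d * (p 0 + p 1 * P.trace + p 2 * Q.trace + p 3 * (P * Q).trace),
        c * p 3 - d * p 1] := by
  ext i j
  fin_cases i <;> fin_cases j <;>
    simp [cb, Matrix.mul_apply, Fin.sum_univ_two, Matrix.det_fin_two, Matrix.trace_fin_two] <;>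
    ring

theorem inv_lin (P : GL (Fin 2) T) (u : T) (hu : u * P.val.det = 1) :
    (P⁻¹).val = (u * P.val.trace) • (1 : Matrix (Fin 2) (Fin 2) T) + (-u) • P.val := by
  apply Units.inv_eq_of_mul_eq_one_right
  rw [Matrix.det_fin_two] at hu
  ext i j
  fin_cases i <;> fin_cases j <;>
    simp [Matrix.mul_apply, Fin.sum_univ_two, Matrix.trace_fin_two, -Matrix.GeneralLinearGroup.coe_mul]
  · linear_combination hu
  · ring
  · ring
  · linear_combination hu

theorem span (ψ : T →+* R) (P' Q' : GL (Fin 2) T) (P Q : GL (Fin 2) R)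
    (h1 : ψ P'.val.trace = P.val.trace) (h2 : ψ P'.val.det = P.val.det)
    (h3 : ψ Q'.val.trace = Q.val.trace) (h4 : ψ Q'.val.det = Q.val.det)
    (h5 : ψ (P'.val * Q'.val).trace = (P.val * Q.val).trace) (w : F) :
    ∃ p, (FreeGroup.lift ![P'⁻¹, Q'⁻¹] w).val = cb P'.val Q'.val p ∧
      (FreeGroup.lift ![P⁻¹, Q⁻¹] w).val = cb P.val Q.val (ψ ∘ p) := by
  let Rel : Matrix (Fin 2) (Fin 2) T → Matrix (Fin 2) (Fin 2) R → Prop := fun M' M =>
    ∀ p, ∃ q, M' * cb P'.val Q'.val p = cb P'.val Q'.val q ∧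
      M * cb P.val Q.val (ψ ∘ p) = cb P.val Q.val (ψ ∘ q)
  have rP : ∀ c d : T, Rel (c • 1 + d • P'.val) (ψ c • 1 + ψ d • P.val) := by
    intro c d p
    refine ⟨_, cb_P _ _ c d p, ?_⟩
    rw [cb_P]
    congr 1
    ext i
    fin_cases i <;> simp [h1, h2]
  have rQ : ∀ c d : T, Rel (c • 1 + d • Q'.val) (ψ c • 1 + ψ d • Q.val) := by
    intro c d p
    refine ⟨_, cb_Q _ _ c d p, ?_⟩
    rw [cb_Q]
    congr 1
    ext i
    fin_cases i <;> simp [h1, h3, h4, h5]
  have un : ∀ M : GL (Fin 2) T, ∃ u, u * M.val.det = 1 := fun M =>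
    ⟨M⁻¹.val.det, by rw [← Matrix.det_mul, Units.inv_mul, Matrix.det_one]⟩
  have key : Rel (FreeGroup.lift ![P'⁻¹, Q'⁻¹] w).val (FreeGroup.lift ![P⁻¹, Q⁻¹] w).val := by
    induction w using FreeGroup.induction_on with
    | C1 => exact fun p => ⟨p, by simp, by simp⟩
    | of i =>
      fin_cases i
      · obtain ⟨u, hu⟩ := un P'
        have := rP (u * P'.val.trace) (-u)
        rw [← inv_lin P' u hu, map_mul, h1, map_neg,
          ← inv_lin P (ψ u) (by rw [← h2, ← map_mul, hu, map_one])] at this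
        simpa only [Fin.zero_eta, FreeGroup.lift_apply_of, Matrix.cons_val_zero] using this
      · obtain ⟨u, hu⟩ := un Q'
        have := rQ (u * Q'.val.trace) (-u)
        rw [← inv_lin Q' u hu, map_mul, h3, map_neg,
          ← inv_lin Q (ψ u) (by rw [← h4, ← map_mul, hu, map_one])] at this
        simpa only [Fin.mk_one, FreeGroup.lift_apply_of, Matrix.cons_val_one,
          Matrix.cons_val_zero] using this
    | inv_of i _ =>
      fin_cases i
      · simpa using rP 0 1
      · simpa using rQ 0 1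
    | mul a b ha hb =>
      intro p
      obtain ⟨q, a1, a2⟩ := hb p
      obtain ⟨r, b1, b2⟩ := ha q
      exact ⟨r, by rw [map_mul, Units.val_mul, mul_assoc, a1, b1],
        by rw [map_mul, Units.val_mul, mul_assoc, a2, b2]⟩
  obtain ⟨q, a1, a2⟩ := key ![1, 0, 0, 0]
  refine ⟨q, ?_, ?_⟩
  · rw [← a1]; simp [cb]
  · rw [← a2]; simp [cb]

theorem lift_scalar (a b : Tˣ) (M N : GL (Fin 2) T) (w : F) :
    FreeGroup.lift ![(Matrix.GeneralLinearGroup.scalar (Fin 2) a * M)⁻¹,
      (Matrix.GeneralLinearGroup.scalar (Fin 2) b * N)⁻¹] w =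
      Matrix.GeneralLinearGroup.scalar (Fin 2) (a⁻¹ ^ e 0 w * b⁻¹ ^ e 1 w) *
        FreeGroup.lift ![M⁻¹, N⁻¹] w := by
  let χ : F →* Tˣ := FreeGroup.lift ![a⁻¹, b⁻¹]
  let h : F →* GL (Fin 2) T :=
    { toFun := fun w => Matrix.GeneralLinearGroup.scalar (Fin 2) (χ w) * FreeGroup.lift ![M⁻¹, N⁻¹] w
      map_one' := by simp
      map_mul' := fun v w => by
        rw [map_mul, map_mul, map_mul, mul_assoc, mul_assoc, ← mul_assoc _ (FreeGroup.lift _ v),
          Matrix.GeneralLinearGroup.scalar_commute (χ w), mul_assoc] }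
  have e1 : FreeGroup.lift ![(Matrix.GeneralLinearGroup.scalar (Fin 2) a * M)⁻¹,
      (Matrix.GeneralLinearGroup.scalar (Fin 2) b * N)⁻¹] = h := by
    apply hom_ext
    · simp only [h, χ, ga, FreeGroup.lift_apply_of, Matrix.cons_val_zero, MonoidHom.coe_mk,
        OneHom.coe_mk]
      rw [Matrix.GeneralLinearGroup.scalar_commute, mul_inv_rev, map_inv]
    · simp only [h, χ, gb, FreeGroup.lift_apply_of, Matrix.cons_val_zero, Matrix.cons_val_one,
        MonoidHom.coe_mk, OneHom.coe_mk]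
      rw [Matrix.GeneralLinearGroup.scalar_commute, mul_inv_rev, map_inv]
  have e2 : χ w = a⁻¹ ^ e 0 w * b⁻¹ ^ e 1 w := by
    rw [comm_formula χ w]; simp [χ, ga, gb]
  rw [e1, ← e2]
  rfl

end span

/-- A finite deformation in which the annihilator of a polynomial expression is small. -/
theorem deform {R : Type} [CommRing R] [Finite R] (r : Fin 5 → Rˣ) (δ : MvPolynomial (Fin 5) ℤ)
    (hδ : δ ≠ 0) : ∃ (S : Type) (_ : CommRing S) (_ : Finite S) (ψ : S →+* R) (u : Fin 5 → Sˣ),
      (∀ i, ψ (u i) = r i) ∧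
        ∀ s, MvPolynomial.eval₂Hom (Int.castRingHom S) (fun i => (u i : S)) δ * s = 0 → ψ s = 0 := by
  let φ : MvPolynomial (Fin 5) ℤ →+* R :=
    MvPolynomial.eval₂Hom (Int.castRingHom R) fun i => (r i : R)
  let J := RingHom.ker φ
  have hJ : Finite (MvPolynomial (Fin 5) ℤ ⧸ J) :=
    Finite.of_injective _ (RingHom.kerLift_injective φ)
  obtain ⟨k, hk⟩ := Ideal.exists_pow_inf_eq_pow_smul J
    (Ideal.span {δ} : Submodule (MvPolynomial (Fin 5) ℤ) (MvPolynomial (Fin 5) ℤ))
  have hle : J ^ (k + 1) ≤ J := Ideal.pow_le_self (Nat.succ_ne_zero k)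
  let mk := Ideal.Quotient.mk (J ^ (k + 1))
  have hu : ∀ i, IsUnit (mk (MvPolynomial.X i)) := by
    intro i
    have h1 : (1 - MvPolynomial.X i ^ Nat.card Rˣ : MvPolynomial (Fin 5) ℤ) ∈ J := by
      rw [RingHom.mem_ker, map_sub, map_one, map_pow]
      simp only [φ, MvPolynomial.eval₂Hom_X']
      rw [← Units.val_pow_eq_pow_val, pow_card_eq_one', Units.val_one, sub_self]
    have h2 : IsNilpotent (mk (1 - MvPolynomial.X i ^ Nat.card Rˣ)) :=
      ⟨k + 1, by rw [← map_pow]; exact Ideal.Quotient.eq_zero_iff_mem.2 (Ideal.pow_mem_pow h1 _)⟩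
    have h3 := h2.isUnit_one_sub
    rw [map_sub, map_one, sub_sub_cancel, map_pow] at h3
    exact (isUnit_pow_iff Nat.card_pos.ne').1 h3
  refine ⟨MvPolynomial (Fin 5) ℤ ⧸ J ^ (k + 1), inferInstance,
    Ideal.finite_quotient_pow (IsNoetherian.noetherian J) _,
    Ideal.Quotient.lift _ φ fun a ha => RingHom.mem_ker.1 (hle ha), fun i => (hu i).unit, fun i => ?_, fun s hs => ?_⟩
  · simp [mk, φ]
  · obtain ⟨s, rfl⟩ := Ideal.Quotient.mk_surjective s
    have e1 : MvPolynomial.eval₂Hom (Int.castRingHom (MvPolynomial (Fin 5) ℤ ⧸ J ^ (k + 1)))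
        (fun i => ((hu i).unit : MvPolynomial (Fin 5) ℤ ⧸ J ^ (k + 1))) = mk := by
      apply MvPolynomial.ringHom_ext'
      · exact RingHom.ext_int _ _
      · intro i; simp
    rw [e1, ← map_mul, Ideal.Quotient.eq_zero_iff_mem] at hs
    have h1 : δ * s ∈ (J ^ (k + 1) • ⊤ ⊓ Ideal.span {δ} : Ideal (MvPolynomial (Fin 5) ℤ)) :=
      ⟨by simpa using hs, Ideal.mul_mem_right _ _ (Ideal.mem_span_singleton_self δ)⟩
    rw [hk (k + 1) (Nat.le_succ k), Nat.add_sub_cancel_left, pow_one] at h1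
    have h2 : δ * s ∈ J * Ideal.span {δ} := Submodule.smul_mono le_rfl inf_le_right h1
    obtain ⟨t, ht, h3⟩ := Ideal.mem_mul_span_singleton.1 h2
    rw [mul_comm δ] at h3
    rw [Ideal.Quotient.lift_mk, ← mul_right_cancel₀ hδ h3]
    exact ht

/-- Some finite ring of coefficients detects the words that vanish on `P⁻¹, Q⁻¹`. -/
def Good {R : Type} [CommRing R] (P Q : GL (Fin 2) R) : Prop :=
  ∃ (S : Type) (_ : CommRing S) (_ : Finite S), ∀ w g : F, pv g = 1 →
    (∀ (x y z : Sˣ) v ζ, cg x y z v (ph w ζ) = cg x y z v (g * ζ * g⁻¹)) →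
      FreeGroup.lift ![P⁻¹, Q⁻¹] w = 1

open MvPolynomial in
theorem good_split {R : Type} [CommRing R] [Finite R] (P Q : GL (Fin 2) R) (a b x y z : Rˣ)
    (h1 : (a : R) * (y * z + 1) = P.val.trace) (h2 : (a : R) * a * (y * z) = P.val.det)
    (h3 : (b : R) * (x * y + 1) = Q.val.trace) (h4 : (b : R) * b * (x * y) = Q.val.det)
    (h5 : (a : R) * b * (y + x * y * z) = P.val.trace * Q.val.trace - (P.val * Q.val).trace) :
    Good P Q := by
  have hδ : ((1 + X 2) * (X 4 - 1) * ((X 2 - 1) * (X 3 - 1) * (X 4 - 1) * (X 2 * X 3 * X 4 - 1)) :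
      MvPolynomial (Fin 5) ℤ) ≠ 0 := by
    intro h
    have := congrArg (eval fun _ => (2 : ℤ)) h
    simp at this
  obtain ⟨S, _, _, ψ, u, hu, hs⟩ := deform ![a, b, x, y, z] _ hδ
  refine ⟨S, inferInstance, inferInstance, fun w g h0 hg => ?_⟩
  obtain ⟨e0, e1, hm⟩ := almost w g h0 hg
  have u0 : ψ (u 0) = a := hu 0
  have u1 : ψ (u 1) = b := hu 1
  have u2 : ψ (u 2) = x := hu 2
  have u3 : ψ (u 3) = y := hu 3
  have u4 : ψ (u 4) = z := hu 4
  simp only [map_mul, map_add, map_sub, map_one, eval₂Hom_X'] at hs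
  generalize u 0 = a' at *
  generalize u 1 = b' at *
  generalize u 2 = x' at *
  generalize u 3 = y' at *
  generalize u 4 = z' at *
  have vP : (Matrix.GeneralLinearGroup.scalar (Fin 2) a' * pA x' y' z').val =
      !![(a' : S) * (y' * z'), 0; -(a' * ((x' - 1) * z')), a'] := by
    rw [Units.val_mul, pA_val]
    ext i j
    fin_cases i <;> fin_cases j <;> simp
  have vQ : (Matrix.GeneralLinearGroup.scalar (Fin 2) b' * pB x' y').val =
      !![(b' : S) * y', -(b' * (y' * (y' - 1))); -(b' * (x' - 1)), b' * (x' * y' - y' + 1)] := by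
    rw [Units.val_mul, pB_val]
    ext i j
    fin_cases i <;> fin_cases j <;> simp
    ring
  obtain ⟨p, hp, hq⟩ := span ψ (Matrix.GeneralLinearGroup.scalar (Fin 2) a' * pA x' y' z')
    (Matrix.GeneralLinearGroup.scalar (Fin 2) b' * pB x' y') P Q
    (by rw [vP, ← h1]; simp [u0, u3, u4]; ring)
    (by rw [vP, ← h2, Matrix.det_fin_two_of]; simp [u0, u3, u4]; ring)
    (by rw [vQ, ← h3]; simp [u1, u2, u3]; ring)
    (by rw [vQ, ← h4, Matrix.det_fin_two_of]; simp [u1, u2, u3]; ring)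
    (by
      rw [vP, vQ, Matrix.mul_fin_two, Matrix.trace_fin_two_of]
      simp only [map_add, map_mul, map_neg, map_sub, map_one, map_zero, u0, u1, u2, u3, u4]
      linear_combination (-1 : R) * h5 + (b * (x * y + 1) : R) * h1 + P.val.trace * h3) w
  rw [lift_scalar, e0, e1, mul_one, map_one, one_mul, vP, vQ] at hp
  have m := hm x' y' z'
  change ∀ i j, _ * ((FreeGroup.lift ![(pA x' y' z')⁻¹, (pB x' y')⁻¹] w).val i j - _) = 0 at m
  rw [hp] at m
  have m00 := m 0 0
  have m01 := m 0 1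
  have m10 := m 1 0
  have m11 := m 1 1
  simp only [cb, Matrix.mul_fin_two, Matrix.add_apply, Matrix.smul_apply, Matrix.of_apply,
    Matrix.cons_val', Matrix.cons_val_zero, Matrix.cons_val_one, Matrix.cons_val_fin_one,
    smul_eq_mul, Matrix.one_apply_eq, Matrix.one_apply_ne (zero_ne_one' (Fin 2)),
    Matrix.one_apply_ne (zero_ne_one' (Fin 2)).symm] at m00 m01 m10 m11
  set d0 : S := (1 + x') * (z' - 1)
  set d1 : S := (x' - 1) * (y' - 1) * (z' - 1) * (x' * y' * z' - 1) with hd1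
  have hm2 : d0 * (y' - 1) * (b' * p 2 + a' * b' * y' * z' * p 3) = 0 := by
    apply y'.isUnit.mul_left_cancel
    linear_combination (-1 : S) * m01
  have E2 : d0 * (x' - 1) * (y' - 1) * (z' * (a' * p 1) + a' * b' * p 3) = 0 := by
    linear_combination (-(y' - 1) : S) * m10 - (x' - 1 : S) * hm2
  have E1 : d0 * (y' - 1) * ((1 - y' * z') * (a' * p 1) +
      (x' * y' - x' * y' * z' - y' + 1) * (a' * b' * p 3)) = 0 := by
    linear_combination (y' - 1 : S) * (m11 - m00) - (x' * y' - 2 * y' + 1 : S) * hm2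
  have q3 : d0 * d1 * (a' * b' * p 3) = 0 := by
    rw [hd1]
    linear_combination (1 - y' * z' : S) * E2 - (z' * (x' - 1) : S) * E1
  have q1 : d0 * d1 * (z' * (a' * p 1)) = 0 := by
    rw [hd1] at q3 ⊢
    linear_combination ((z' - 1) * (x' * y' * z' - 1) : S) * E2 - q3
  have q2 : d0 * d1 * (b' * p 2) = 0 := by
    rw [hd1] at q3 ⊢
    linear_combination ((x' - 1) * (z' - 1) * (x' * y' * z' - 1) : S) * hm2 - (y' * z' : S) * q3
  have q0 : d0 * d1 * (p 0 - 1) = 0 := by
    linear_combination d1 * m00 - (y' : S) * q1 - (y' : S) * q2 - (y' * y' * z' : S) * q3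
  have r0 := hs _ q0
  have r1 := hs _ q1
  have r2 := hs _ q2
  have r3 := hs _ q3
  simp only [map_mul, map_sub, map_one, u0, u1, u4, mul_assoc, Units.mul_right_eq_zero,
    sub_eq_zero] at r0 r1 r2 r3
  apply Units.ext
  rw [hq]
  simp [cb, r0, r1, r2, r3]

theorem root {R : Type} [CommRing R] [Finite R] (τ : R) (δ : Rˣ) :
    ∃ (R' : Type) (_ : CommRing R') (_ : Finite R') (ι : R →+* R') (c : R'ˣ),
      Function.Injective ι ∧ (c : R') * c - ι τ * c + ι δ = 0 := by
  have h := QuadraticAlgebra.omega_mul_omega_eq_algebraMap (a := -(δ : R)) (b := τ)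
  rw [map_neg] at h
  have hu : IsUnit (QuadraticAlgebra.omega : QuadraticAlgebra R (-(δ : R)) τ) := by
    refine isUnit_of_mul_isUnit_left (y := algebraMap R _ τ - QuadraticAlgebra.omega) ?_
    have : (QuadraticAlgebra.omega : QuadraticAlgebra R (-(δ : R)) τ) *
        (algebraMap R _ τ - QuadraticAlgebra.omega) = algebraMap R _ (δ : R) := by
      linear_combination -h
    rw [this]
    exact δ.isUnit.map _
  exact ⟨QuadraticAlgebra R (-(δ : R)) τ, inferInstance,
    Finite.of_equiv _ (QuadraticAlgebra.equivProd _ _).symm, algebraMap R _, hu.unit,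
    QuadraticAlgebra.algebraMap_injective, by rw [IsUnit.unit_spec]; linear_combination h⟩

theorem good_roots {R : Type} [CommRing R] [Finite R] (P Q : GL (Fin 2) R) (a b c : Rˣ)
    (ha : (a : R) * a - P.val.trace * a + P.val.det = 0)
    (hb : (b : R) * b - Q.val.trace * b + Q.val.det = 0)
    (hc : (c : R) * c - (P.val.trace * Q.val.trace - (P.val * Q.val).trace) * c +
      P.val.det * Q.val.det = 0) : Good P Q := by
  obtain ⟨y, hy⟩ : ∃ y : Rˣ, a * b * y = c := ⟨(a * b)⁻¹ * c, by group⟩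
  obtain ⟨z, hz⟩ : ∃ z : Rˣ, a * a * y * z = Matrix.GeneralLinearGroup.det P :=
    ⟨(a * a * y)⁻¹ * _, mul_inv_cancel_left _ _⟩
  obtain ⟨x, hx⟩ : ∃ x : Rˣ, b * b * y * x = Matrix.GeneralLinearGroup.det Q :=
    ⟨(b * b * y)⁻¹ * _, mul_inv_cancel_left _ _⟩
  have hy' := congrArg Units.val hy
  have hz' := congrArg Units.val hz
  have hx' := congrArg Units.val hx
  simp only [Units.val_mul, Matrix.GeneralLinearGroup.val_det_apply] at hy' hz' hx'
  refine good_split P Q a b x y z ?_ ?_ ?_ ?_ ?_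
  · apply a.isUnit.mul_left_cancel
    linear_combination ha + hz'
  · linear_combination hz'
  · apply b.isUnit.mul_left_cancel
    linear_combination hb + hx'
  · linear_combination hx'
  · apply c.isUnit.mul_left_cancel
    linear_combination hc + (c - a * b * x * y * z : R) * hy' + Q.val.det * hz' +
      (a * a * y * z : R) * hx'

theorem good_map {R R' : Type} [CommRing R] [CommRing R'] (ι : R →+* R')
    (hι : Function.Injective ι) (P Q : GL (Fin 2) R)
    (h : Good (Matrix.GeneralLinearGroup.map ι P) (Matrix.GeneralLinearGroup.map ι Q)) :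
    Good P Q := by
  obtain ⟨S, _, _, h⟩ := h
  refine ⟨S, inferInstance, inferInstance, fun w g h0 hg => ?_⟩
  have h1 := h w g h0 hg
  have h2 : FreeGroup.lift ![(Matrix.GeneralLinearGroup.map ι P)⁻¹,
      (Matrix.GeneralLinearGroup.map ι Q)⁻¹] =
      (Matrix.GeneralLinearGroup.map ι).comp (FreeGroup.lift ![P⁻¹, Q⁻¹]) := by
    apply hom_ext <;> simp [ga, gb]
  rw [h2, MonoidHom.comp_apply] at h1
  ext i j
  apply hι
  have := congrArg (fun M : GL (Fin 2) R' => M.val i j) h1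
  simp only [Matrix.GeneralLinearGroup.map_apply] at this
  rw [this]
  simp [Matrix.one_apply]

theorem good {R : Type} [CommRing R] [Finite R] (P Q : GL (Fin 2) R) : Good P Q := by
  obtain ⟨R1, _, _, ι1, a, i1, ha⟩ := root P.val.trace (Matrix.GeneralLinearGroup.det P)
  obtain ⟨R2, _, _, ι2, b, i2, hb⟩ := root (ι1 Q.val.trace)
    (Units.map ι1.toMonoidHom (Matrix.GeneralLinearGroup.det Q))
  obtain ⟨R3, _, _, ι3, c, i3, hc⟩ :=
    root (ι2 (ι1 (P.val.trace * Q.val.trace - (P.val * Q.val).trace)))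
    (Units.map (ι2.comp ι1).toMonoidHom
      (Matrix.GeneralLinearGroup.det P * Matrix.GeneralLinearGroup.det Q))
  refine good_map (ι3.comp (ι2.comp ι1)) (i3.comp (i2.comp i1)) P Q
    (good_roots _ _ (Units.map (ι3.comp ι2).toMonoidHom a) (Units.map ι3.toMonoidHom b) c ?_ ?_ ?_)
  · have := congrArg (ι3.comp ι2) ha
    simpa [Matrix.trace_fin_two, Matrix.det_fin_two] using this
  · have := congrArg ι3 hb
    simpa [Matrix.trace_fin_two, Matrix.det_fin_two] using this
  · simpa [Matrix.trace_fin_two, Matrix.det_fin_two, Matrix.mul_apply,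
      -Matrix.GeneralLinearGroup.coe_mul] using hc

end Pool.Agent.MP_6c678b_al.Rk
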