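import Pool.Agent.Mg.F6c678b.G03d867

/-! The squares of the two Dehn twists act on triples of affine maps through two by two
matrices; a word that acts by an inner automorphism has an almost trivial matrix. -/

set_option autoImplicit false

namespace Pool.Agent.MP_6c678b_al.Rk

open Pool.Agent.MP_6c678b_al.Nil
open scoped commutatorElement Matrix
open RegularWreathProduct

/-- The map to the four group. -/
def pv : F →* V := FreeGroup.lift ![V.k, V.i]

theorem cf_right {U : Type*} [Group U] (u v w : U) (g : F) : (cf u v w g).right = pv g := by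
  have : (rightHom : U ≀ᵣ V →* V).comp (cf u v w) = pv := by
    apply hom_ext
    · change (cf u v w ga).right = _
      rw [cf_a]; simp [pv, ga]
    · change (cf u v w gb).right = _
      rw [cf_b]; simp [pv, gb]
  exact DFunLike.congr_fun this g

theorem pv_eq_one (g : F)
    (h : cf (Multiplicative.ofAdd (1 : ZMod 3)) 1 1 kap =
      cf (Multiplicative.ofAdd (1 : ZMod 3)) 1 1 (g * kap * g⁻¹)) : pv g = 1 := by
  rw [map_mul, map_mul, map_inv, eq_mul_inv_iff_mul_eq, cf_kap] at h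
  rw [← cf_right (Multiplicative.ofAdd (1 : ZMod 3)) 1 1]
  generalize cf (Multiplicative.ofAdd (1 : ZMod 3)) 1 1 g = β at h
  obtain ⟨β, q⟩ := β
  have k2 := congrFun (congrArg RegularWreathProduct.left h) V.o
  cases q with
  | o => rfl
  | i =>
    simp [V.fn, V.mul_def, V.mul, V.inv_def, V.one_def] at k2
    exact absurd k2 (by decide)
  | j =>
    simp [V.fn, V.mul_def, V.mul, V.inv_def, V.one_def] at k2
    exact absurd k2 (by decide)
  | k =>
    simp [V.fn, V.mul_def, V.mul, V.inv_def, V.one_def] at k2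
    rw [mul_comm, mul_right_inj] at k2
    exact absurd k2 (by decide)

variable {S : Type*} [CommRing S]

/-- The homomorphism attached to the triple `(v 0, x), (v 1, y), (0, z)`. -/
def cg (x y z : Sˣ) (v : Fin 2 → S) : F →* Aff S ≀ᵣ V := cf ⟨x, v 0⟩ ⟨y, v 1⟩ ⟨z, 0⟩

theorem cg_mul (x y z x' y' z' : Sˣ) (v v₁ v₂ : Fin 2 → S) (g : F) (q : V) :
    ((cg (x * x') (y * y') (z * z') v g).left q).y =
      ((cg x y z v₁ g).left q).y * ((cg x' y' z' v₂ g).left q).y := by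
  induction g using FreeGroup.induction_on generalizing q with
  | C1 => simp
  | of i =>
    fin_cases i
    · change Aff.y ((cf _ _ _ ga).left q) = Aff.y ((cf _ _ _ ga).left q) * Aff.y ((cf _ _ _ ga).left q)
      simp only [cf_a]
      cases q <;> simp [V.fn, mul_comm, mul_left_comm]
    · change Aff.y ((cf _ _ _ gb).left q) = Aff.y ((cf _ _ _ gb).left q) * Aff.y ((cf _ _ _ gb).left q)
      simp only [cf_b]
      cases q <;> simp [V.fn, mul_comm, mul_left_comm]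
  | inv_of i ih =>
    simp only [map_inv, inv_left, Pi.inv_apply, Aff.inv_y]
    simp only [cg, cf_right] at ih ⊢
    rw [ih, mul_inv]
  | mul a b ha hb =>
    simp only [map_mul, mul_left, Pi.mul_apply, Aff.mul_y]
    simp only [cg, cf_right] at ha hb ⊢
    rw [ha, hb, mul_mul_mul_comm]

theorem cg_ker (x y z : Sˣ) (v : Fin 2 → S) : derivedSeries F 3 ≤ (cg x y z v).ker := by
  have h1 : derivedSeries (Aff S) 1 ≤ Aff.yHom.ker := by
    rw [derivedSeries_succ, Subgroup.commutator_le]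
    exact fun g _ h _ => Aff.comm_y g h
  have h2 : derivedSeries (Aff S) 2 = ⊥ := by
    rw [eq_bot_iff, derivedSeries_succ, Subgroup.commutator_le]
    intro g hg h hh
    have a : g.y = 1 := h1 hg
    have b : h.y = 1 := h1 hh
    rw [Subgroup.mem_bot]
    ext
    · rw [Aff.comm_y]; rfl
    · rw [Aff.comm_n, a, b]; simp
  have := cf_der (⟨x, v 0⟩ : Aff S) ⟨y, v 1⟩ ⟨z, 0⟩ (derivedSeries (Aff S)) (Subgroup.mem_top _)
    (Subgroup.mem_top _) (Subgroup.mem_top _) (fun i => le_rfl) 2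
  rw [h2, base_bot] at this
  exact this

/-- The inverse matrix of the first generator. -/
noncomputable def pA (x y z : Sˣ) : GL (Fin 2) S :=
  Matrix.GeneralLinearGroup.mk'' !![y * z, 0; -((x - 1) * z), 1]
    (by rw [Matrix.det_fin_two_of]; simp)

/-- The inverse matrix of the second generator. -/
noncomputable def pB (x y : Sˣ) : GL (Fin 2) S :=
  Matrix.GeneralLinearGroup.mk'' !![y, -(y * (y - 1)); -(x - 1), x * y - y + 1]
    (by
      rw [Matrix.det_fin_two_of]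
      have : (y : S) * (x * y - y + 1) - -(y * (y - 1)) * -(x - 1) = (x * y : Sˣ) := by
        push_cast; ring
      rw [this]; exact Units.isUnit _)

theorem pA_val (x y z : Sˣ) :
    (pA x y z).val = !![(y : S) * z, 0; -(((x : S) - 1) * z), 1] := rfl
theorem pB_val (x y : Sˣ) :
    (pB x y).val = !![(y : S), -((y : S) * (y - 1)); -((x : S) - 1), (x : S) * y - y + 1] := rfl

/-- Automorphisms fixing the commutator that move the triples by a matrix. -/
def Sg (x y z : Sˣ) : Subgroup (MulAut F × GL (Fin 2) S × Sˣ) where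
  carrier := {p | p.1 kap = kap ∧ ∀ v, ∃ h, (h V.o).y = p.2.2 ∧ ∀ ζ, cg x y z v (p.1 ζ) =
    bs h * cg x y z (v ᵥ* p.2.1.val) ζ * (bs h)⁻¹}
  one_mem' := ⟨rfl, fun v => ⟨1, rfl, fun ζ => by simp⟩⟩
  mul_mem' := by
    rintro p q ⟨p1, p2⟩ ⟨q1, q2⟩
    refine ⟨by simp [p1, q1], fun v => ?_⟩
    obtain ⟨h, h0, hh⟩ := p2 v
    obtain ⟨k, k0, hk⟩ := q2 (v ᵥ* p.2.1.val)
    refine ⟨h * k, by simp [h0, k0], fun ζ => ?_⟩
    rw [Prod.fst_mul, MulAut.mul_apply, hh, hk, map_mul, Matrix.vecMul_vecMul]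
    simp only [Prod.snd_mul, Prod.fst_mul, Units.val_mul]
    group
  inv_mem' := by
    rintro p ⟨p1, p2⟩
    refine ⟨by rw [Prod.fst_inv, MulAut.inv_apply, MulEquiv.symm_apply_eq, p1], fun v => ?_⟩
    obtain ⟨h, h0, hh⟩ := p2 (v ᵥ* p⁻¹.2.1.val)
    refine ⟨h⁻¹, by simp [h0], fun ζ => ?_⟩
    have e1 : (v ᵥ* p⁻¹.2.1.val) ᵥ* p.2.1.val = v := by
      rw [Matrix.vecMul_vecMul, Prod.snd_inv, Prod.fst_inv, Units.inv_mul, Matrix.vecMul_one]
    have := hh (p.1⁻¹ ζ)
    rw [MulAut.apply_inv_self, e1] at this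
    rw [this, map_inv, Prod.fst_inv]
    group

theorem back (M : GL (Fin 2) S) (v : Fin 2 → S) : ∃ t, v = t ᵥ* M.val ∧ v ᵥ* M⁻¹.val = t :=
  ⟨_, by rw [Matrix.vecMul_vecMul, Units.inv_mul, Matrix.vecMul_one], rfl⟩

theorem A_mem (x y z : Sˣ) : (A, (pA x y z)⁻¹, z * y) ∈ Sg x y z := by
  refine ⟨A_kap, fun v => ?_⟩
  obtain ⟨t, h1, h2⟩ := back (pA x y z) v
  have a0 : v 0 = y * z * t 0 - (x - 1) * z * t 1 := by
    rw [h1, pA_val]; simp [Matrix.vecMul, dotProduct]; ring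
  have a1 : v 1 = t 1 := by rw [h1, pA_val]; simp [Matrix.vecMul, dotProduct]
  have e1 : ((⟨z, 0⟩ : Aff S) * ⟨y, v 1⟩)⁻¹ * ⟨x, v 0⟩ * (⟨z, 0⟩ * ⟨y, v 1⟩) = ⟨x, t 0⟩ := by
    rw [mul_assoc, inv_mul_eq_iff_eq_mul]
    ext
    · simp [mul_comm]
    · simp [a0, a1]; ring
  have := cf_A (⟨x, v 0⟩ : Aff S) ⟨y, v 1⟩ ⟨z, 0⟩
  rw [e1] at this
  refine ⟨V.fn (⟨z, 0⟩ * ⟨y, v 1⟩) 1 1 (⟨y, v 1⟩ * ⟨z, 0⟩), rfl, fun ζ => (this ζ).trans ?_⟩
  simp only [h2, cg, a1]

theorem B_mem (x y z : Sˣ) : (B, (pB x y)⁻¹, y * x) ∈ Sg x y z := by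
  refine ⟨B_kap, fun v => ?_⟩
  obtain ⟨t, h1, h2⟩ := back (pB x y) v
  have a0 : v 0 = y * t 0 - (x - 1) * t 1 := by
    rw [h1, pB_val]; simp [Matrix.vecMul, dotProduct]; ring
  have a1 : v 1 = -(y * (y - 1)) * t 0 + (x * y - y + 1) * t 1 := by
    rw [h1, pB_val]; simp [Matrix.vecMul, dotProduct]; ring
  have e1 : ((⟨y, v 1⟩ : Aff S) * ⟨x, v 0⟩)⁻¹ * ⟨x, v 0⟩ * (⟨y, v 1⟩ * ⟨x, v 0⟩) = ⟨x, t 0⟩ := by
    rw [mul_assoc, inv_mul_eq_iff_eq_mul]
    ext
    · simp [mul_comm]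
    · simp [a0, a1]; ring
  have e2 : (⟨x, v 0⟩ : Aff S)⁻¹ * ⟨y, v 1⟩ * ⟨x, v 0⟩ = ⟨y, t 1⟩ := by
    rw [mul_assoc, inv_mul_eq_iff_eq_mul]
    ext
    · simp [mul_comm]
    · simp [a0, a1]; ring
  have := cf_B (⟨x, v 0⟩ : Aff S) ⟨y, v 1⟩ ⟨z, 0⟩
  rw [e1, e2] at this
  refine ⟨V.fn (⟨y, v 1⟩ * ⟨x, v 0⟩) (⟨y, v 1⟩ * ⟨x, v 0⟩) 1 1, rfl, fun ζ => (this ζ).trans ?_⟩
  simp only [h2, cg]

/-- Words in the two squares of twists. -/
def ph : F →* MulAut F := FreeGroup.lift ![A, B]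

/-- The matrices of words. -/
noncomputable def nm (x y z : Sˣ) : F →* GL (Fin 2) S := FreeGroup.lift ![(pA x y z)⁻¹, (pB x y)⁻¹]

theorem word_mem (x y z : Sˣ) (w : F) :
    (ph w, nm x y z w, (z * y) ^ e 0 w * (y * x) ^ e 1 w) ∈ Sg x y z := by
  have h : (⊤ : Subgroup F) ≤ (Sg x y z).comap
      (ph.prod ((nm x y z).prod (FreeGroup.lift ![z * y, y * x]))) := by
    rw [← FreeGroup.closure_range_of, Subgroup.closure_le]
    rintro _ ⟨i, rfl⟩
    fin_cases i
    · simpa [ph, nm] using A_mem x y z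
    · simpa [ph, nm] using B_mem x y z
  have h2 := comm_formula (FreeGroup.lift ![z * y, y * x]) w
  have h3 := h (Subgroup.mem_top w)
  simp only [Subgroup.mem_comap, MonoidHom.prod_apply] at h3
  rw [h2] at h3
  simpa [ga, gb] using h3

theorem eqns (x y z : Sˣ) (p : MulAut F × GL (Fin 2) S × Sˣ) (hp : p ∈ Sg x y z) (g : F)
    (h0 : pv g = 1) (v : Fin 2 → S)
    (hg : ∀ ζ, cg x y z v (p.1 ζ) = cg x y z v (g * ζ * g⁻¹)) :
    ∃ (l : Sˣ) (n : S), p.2.2 * l = ((cg x y z v g).left V.o).y ∧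
      (1 + x : S) * ((v ᵥ* p.2.1.val) 0 - l * v 0) = (1 - x * x) * n ∧
      (z : S) * ((v ᵥ* p.2.1.val) 1 - l * v 1) = (1 - z * y) * n ∧
      (y : S) * ((v ᵥ* p.2.1.val) 0 - l * v 0) + ((v ᵥ* p.2.1.val) 1 - l * v 1) =
        (1 - x * y) * n := by
  obtain ⟨h, hy, hh⟩ := hp.2 v
  have k : ∀ ζ, cg x y z (v ᵥ* p.2.1.val) ζ * ((bs h)⁻¹ * cg x y z v g) =
      ((bs h)⁻¹ * cg x y z v g) * cg x y z v ζ := by
    intro ζ
    have := (hh ζ).symm.trans (hg ζ)
    rw [map_mul, map_mul, map_inv] at this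
    calc _ = (bs h)⁻¹ * (bs h * cg x y z (v ᵥ* p.2.1.val) ζ * (bs h)⁻¹) * cg x y z v g := by
          group
      _ = _ := by rw [this]; group
  have hq : ((bs h)⁻¹ * cg x y z v g).right = 1 := by
    simp [bs, cg, cf_right, h0]
  have hl : p.2.2 * (((bs h)⁻¹ * cg x y z v g).left V.o).y = ((cg x y z v g).left V.o).y := by
    simp [bs, hy]
  generalize (bs h)⁻¹ * cg x y z v g = β at k hq hl
  generalize v ᵥ* p.2.1.val = t at k
  obtain ⟨β, q⟩ := β
  obtain rfl : q = 1 := hq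
  have a1 := congrArg Aff.n (congrFun (congrArg RegularWreathProduct.left (k kap)) V.o)
  have a2 := congrArg Aff.n (congrFun (congrArg RegularWreathProduct.left (k (ga * ga)⁻¹)) V.o)
  have a3 := congrArg Aff.n (congrFun (congrArg RegularWreathProduct.left (k (gb * gb)⁻¹)) V.o)
  simp only [cg, cf_kap, map_mul, map_inv, cf_a, cf_b] at a1 a2 a3
  simp [V.fn, V.mul_def, V.mul, V.inv_def, V.one_def, sq] at a1 a2 a3
  refine ⟨_, (β V.o).n, hl, ?_, ?_, ?_⟩
  · linear_combination a1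
  · linear_combination a2
  · linear_combination a3

/-- Upper triangular matrices fixing a vector. -/
def du (m : S) : Sˣ →* Matrix (Fin 2) (Fin 2) S where
  toFun u := !![(u : S), m * (1 - u); 0, 1]
  map_one' := by simp [Matrix.one_fin_two]
  map_mul' u v := by
    simp only [Matrix.mul_fin_two, Units.val_mul]
    apply mat_eq <;> ring

/-- Lower triangular matrices. -/
def el : Aff S →* Matrix (Fin 2) (Fin 2) S where
  toFun u := !![1, 0; u.n, (u.y : S)]
  map_one' := by simp [Matrix.one_fin_two]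
  map_mul' u v := by
    simp only [Matrix.mul_fin_two, Aff.mul_y, Aff.mul_n, Units.val_mul]
    apply mat_eq <;> ring

theorem nm_z (z : Sˣ) (w : F) : (nm 1 1 z w).val = du 0 (z⁻¹ ^ e 0 w) := by
  have : nm 1 1 z = (du (0 : S)).toHomUnits.comp (FreeGroup.lift ![z⁻¹, 1⁻¹]) := by
    apply hom_ext
    · simp only [nm, ga, FreeGroup.lift_apply_of, MonoidHom.comp_apply, Matrix.cons_val_zero,
        map_inv, inv_inj]
      apply Units.ext
      rw [pA_val]; simp [du]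
    · simp only [nm, gb, FreeGroup.lift_apply_of, MonoidHom.comp_apply, Matrix.cons_val_one,
        Matrix.cons_val_zero, map_inv, inv_inj]
      apply Units.ext
      rw [pB_val]; simp [Matrix.one_fin_two]
  rw [this, MonoidHom.comp_apply, comm_formula (FreeGroup.lift ![z⁻¹, 1⁻¹]) w,
    MonoidHom.coe_toHomUnits]
  congr 1
  simp [ga, gb]

theorem nm_y (y : Sˣ) (w : F) : (nm 1 y y⁻¹ w).val = du (y : S) (y⁻¹ ^ e 1 w) := by
  have : nm 1 y y⁻¹ = (du (y : S)).toHomUnits.comp (FreeGroup.lift ![1⁻¹, y⁻¹]) := by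
    apply hom_ext
    · simp only [nm, ga, FreeGroup.lift_apply_of, MonoidHom.comp_apply, Matrix.cons_val_zero,
        map_inv, inv_inj]
      apply Units.ext
      rw [pA_val]; simp [Matrix.one_fin_two]
    · simp only [nm, gb, FreeGroup.lift_apply_of, MonoidHom.comp_apply, Matrix.cons_val_one,
        Matrix.cons_val_zero, map_inv, inv_inj]
      apply Units.ext
      rw [pB_val]; simp [du]; ring
  rw [this, MonoidHom.comp_apply, comm_formula (FreeGroup.lift ![1⁻¹, y⁻¹]) w,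
    MonoidHom.coe_toHomUnits]
  congr 1
  simp [ga, gb]

theorem nm_x (x : Sˣ) (w : F) : (nm x 1 1 w).val 1 1 = (x⁻¹ ^ e 1 w : Sˣ) := by
  let f : F →* Aff S := FreeGroup.lift ![(⟨1, -((x : S) - 1)⟩ : Aff S)⁻¹, ⟨x, -((x : S) - 1)⟩⁻¹]
  have : nm x 1 1 = el.toHomUnits.comp f := by
    apply hom_ext
    · simp only [f, nm, ga, FreeGroup.lift_apply_of, MonoidHom.comp_apply, Matrix.cons_val_zero,
        map_inv, inv_inj]
      apply Units.ext
      rw [pA_val]; simp [el]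
    · simp only [f, nm, gb, FreeGroup.lift_apply_of, MonoidHom.comp_apply, Matrix.cons_val_one,
        Matrix.cons_val_zero, map_inv, inv_inj]
      apply Units.ext
      rw [pB_val]; simp [el]
  have h2 : (f w).y = x⁻¹ ^ e 1 w := by
    have := comm_formula (Aff.yHom.comp f) w
    simpa [f, ga, gb, Aff.yHom] using this
  rw [this, ← h2]
  rfl

theorem almost (w g : F) (h0 : pv g = 1)
    (hg : ∀ (x y z : Sˣ) v ζ, cg x y z v (ph w ζ) = cg x y z v (g * ζ * g⁻¹)) :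
    (∀ u : Sˣ, u ^ e 0 w = 1) ∧ (∀ u : Sˣ, u ^ e 1 w = 1) ∧
      ∀ (x y z : Sˣ) (i j : Fin 2), (1 + x : S) * (z - 1) *
        ((nm x y z w).val i j - (1 : Matrix (Fin 2) (Fin 2) S) i j) = 0 := by
  let γ : Sˣ → Sˣ → Sˣ → Sˣ := fun x y z => ((cg x y z 0 g).left V.o).y
  have γv : ∀ x y z v, ((cg x y z v g).left V.o).y = γ x y z := by
    intro x y z v
    have a := cg_mul x y z 1 1 1 v 0 0 g V.o
    have b := cg_mul x y z 1 1 1 0 0 0 g V.o
    simp only [mul_one] at a b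
    exact a.trans b.symm
  have E := fun x y z i => eqns x y z _ (word_mem x y z w) g h0 (Pi.single i 1) (hg x y z _)
  simp only [γv, Matrix.single_one_vecMul, Matrix.row_apply] at E
  have z1 : ∀ z : Sˣ, z ^ e 0 w = γ 1 1 z ∧ z ^ e 0 w = 1 := by
    intro z
    obtain ⟨l, n, a, -, -, b⟩ := E 1 1 z 1
    obtain ⟨l', n', a', -, -, b'⟩ := E 1 1 z 0
    have hl : l = 1 := by
      apply Units.ext
      simp [nm_z, du] at b
      simpa using (sub_eq_zero.1 b).symm
    obtain rfl : l' = l := mul_left_cancel (a'.trans a.symm)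
    subst hl
    refine ⟨by simpa using a, ?_⟩
    simp [nm_z, du] at b'
    simpa [sub_eq_zero] using b'
  have y1 : ∀ y : Sˣ, y ^ e 1 w = γ 1 y y⁻¹ ∧ y ^ e 1 w = 1 := by
    intro y
    obtain ⟨l, n, a, -, b, -⟩ := E 1 y y⁻¹ 1
    obtain ⟨l', n', -, -, b', -⟩ := E 1 y y⁻¹ 0
    have hl : l = 1 := by
      apply Units.ext
      simp [nm_y, du] at b
      simpa using (sub_eq_zero.1 b).symm
    subst hl
    refine ⟨by simpa using a, ?_⟩
    simp [nm_y, du] at b'
    simpa [sub_eq_zero] using (sub_eq_zero.1 b').symm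
  have x1 : ∀ x : Sˣ, γ x 1 1 = 1 := by
    intro x
    obtain ⟨l, n, a, -, b, -⟩ := E x 1 1 1
    rw [nm_x, (y1 _).2] at b
    have hl : l = 1 := by
      apply Units.ext
      simp at b
      simpa using (sub_eq_zero.1 b).symm
    rw [← a, hl, (z1 _).2, (y1 _).2]; simp
  have γ1 : ∀ x y z, γ x y z = 1 := by
    intro x y z
    have a := cg_mul 1 y y⁻¹ 1 1 (y * z) 0 0 0 g V.o
    have b := cg_mul x 1 1 1 y z 0 0 0 g V.o
    simp only [γv, mul_one, one_mul, inv_mul_cancel_left] at a b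
    rw [b, a, x1, ← (y1 _).1, ← (z1 _).1, (y1 _).2, (z1 _).2]; simp
  refine ⟨fun u => (z1 u).2, fun u => (y1 u).2, fun x y z i j => ?_⟩
  obtain ⟨l, n, a, b, c, d⟩ := E x y z i
  rw [(z1 _).2, (y1 _).2, γ1, one_mul, one_mul] at a
  subst a
  have hn : (1 + x : S) * (z - 1) * n = 0 := by
    linear_combination (z * y : S) * b - (1 + x : S) * z * d + (1 + x : S) * c
  have e1 : ∀ j, (1 : Matrix (Fin 2) (Fin 2) S) i j = ((1 : Sˣ) : S) * (Pi.single i (1 : S) : Fin 2 → S) j := by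
    intro j
    simp [Matrix.one_apply, Pi.single_apply, eq_comm]
  rw [e1]
  have f1 : (1 + x : S) * (z - 1) * ((nm x y z w).val i 1 -
      ((1 : Sˣ) : S) * (Pi.single i (1 : S) : Fin 2 → S) 1) = 0 := by
    apply z.isUnit.mul_left_cancel
    linear_combination (1 + x : S) * (z - 1) * c + (1 - z * y : S) * hn
  fin_cases j
  · apply y.isUnit.mul_left_cancel
    simp only [Fin.zero_eta]
    linear_combination (1 + x : S) * (z - 1) * d + (1 - x * y : S) * hn - f1
  · exact f1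

end Pool.Agent.MP_6c678b_al.Rk
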