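import Pool.Agent.MP_6c678b_al.RkAlg

/-! Passage from words in the squares of the twists to integer matrices. -/

set_option autoImplicit false

namespace Pool.Agent.MP_6c678b_al.Rk

open Pool.Agent.MP_6c678b_al.Nil
open scoped Matrix MatrixGroups commutatorElement

theorem der_comm (U : Type*) [CommGroup U] (n : ℕ) : derivedSeries U (n + 1) = ⊥ := by
  rw [eq_bot_iff, derivedSeries_succ, Subgroup.commutator_le]
  intro g _ h _
  simp [commutatorElement_def]

/-- Exponent sums modulo four. -/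
def e4 (i : Fin 2) : F →* Multiplicative (ZMod 4) :=
  (AddMonoidHom.toMultiplicative (Int.castAddHom (ZMod 4))).comp (ex i)

theorem words {R : Type} [CommRing R] [Finite R] (X Y : GL (Fin 2) R) :
    ∃ K : Subgroup (F ⧸ derivedSeries F 3), K.Characteristic ∧ K.FiniteIndex ∧
      (∀ (σ : MulAut F) (g : F), (∀ x, (QuotientGroup.mk (σ x * (g * x * g⁻¹)⁻¹) :
        F ⧸ derivedSeries F 3) ∈ K) → ∀ i x, (e i (σ x) : ZMod 4) = e i x) ∧
      ∀ w g : F, (∀ x, (QuotientGroup.mk (ph w x * (g * x * g⁻¹)⁻¹) :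
        F ⧸ derivedSeries F 3) ∈ K) → FreeGroup.lift ![X, Y] w = 1 := by
  obtain ⟨S, _, _, hS⟩ := good X⁻¹ Y⁻¹
  simp only [inv_inv] at hS
  obtain ⟨K, h1, h2, h3⟩ := exists_char (derivedSeries F 3)
    (RegularWreathProduct (Aff S) V × RegularWreathProduct (Multiplicative (ZMod 3)) V ×
      Multiplicative (ZMod 4))
  have via : ∀ (f₁ : F →* RegularWreathProduct (Aff S) V)
      (f₂ : F →* RegularWreathProduct (Multiplicative (ZMod 3)) V)
      (f₃ : F →* Multiplicative (ZMod 4)), derivedSeries F 3 ≤ f₁.ker →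
      derivedSeries F 3 ≤ f₂.ker → ∀ x y : F,
      (QuotientGroup.mk (x * y⁻¹) : F ⧸ derivedSeries F 3) ∈ K →
      f₁ x = f₁ y ∧ f₂ x = f₂ y ∧ f₃ x = f₃ y := by
    intro f₁ f₂ f₃ a b x y hx
    have c : derivedSeries F 3 ≤ f₃.ker := by
      rw [← Subgroup.map_eq_bot_iff, eq_bot_iff, ← der_comm _ 2]
      exact map_derivedSeries_le_derivedSeries f₃ 3
    have := h3 (f₁.prod (f₂.prod f₃))
      (fun z hz => Prod.ext (a hz) (Prod.ext (b hz) (c hz))) _ hx
    rw [map_mul, map_inv, mul_inv_eq_one] at this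
    exact ⟨congrArg Prod.fst this, congrArg (Prod.fst ∘ Prod.snd) this,
      congrArg (Prod.snd ∘ Prod.snd) this⟩
  have k2 : derivedSeries F 3 ≤ (cf (Multiplicative.ofAdd (1 : ZMod 3)) 1 1).ker := by
    have := cf_der (Multiplicative.ofAdd (1 : ZMod 3)) 1 1 (derivedSeries _) (Subgroup.mem_top _)
      (Subgroup.mem_top _) (Subgroup.mem_top _) (fun i => le_rfl) 2
    rw [der_comm, base_bot] at this
    exact this
  refine ⟨K, h1, h2, fun σ g hg i x => ?_, fun w g hg => hS w g (pv_eq_one g ?_) ?_⟩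
  · have := (via 1 1 (e4 i) (by simp) (by simp) _ _ (hg x)).2.2
    rw [map_mul, map_mul, map_inv, mul_inv_cancel_comm] at this
    exact congrArg Multiplicative.toAdd this
  · have := (via 1 _ 1 (by simp) k2 _ _ (hg kap)).2.1
    rwa [show ph w kap = kap from (word_mem (S := S) 1 1 1 w).1] at this
  · exact fun x y z v ζ => (via _ 1 1 (cg_ker x y z v) (by simp) _ _ (hg ζ)).1

/-- The action on the abelianization. -/
def matZ : MulAut F →* Matrix (Fin 2) (Fin 2) ℤ where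
  toFun σ := Matrix.of fun i j => e i (σ (FreeGroup.of j))
  map_one' := by
    ext i j
    simp [e_of, Matrix.one_apply]
  map_mul' σ τ := by
    ext i j
    have := e_hom σ.toMonoidHom i (τ (FreeGroup.of j))
    simp only [MulEquiv.toMonoidHom_eq_coe, MonoidHom.coe_coe] at this
    simp [Matrix.mul_apply, Fin.sum_univ_two, this, ga, gb]

theorem matZ_eq (σ : MulAut F) :
    matZ σ = !![e 0 (σ ga), e 0 (σ gb); e 1 (σ ga), e 1 (σ gb)] := by
  ext i j
  fin_cases i <;> fin_cases j <;> rfl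

theorem matZ_A : matZ A = !![1, 2; 0, 1] := by
  rw [matZ_eq, A_a, A_b]; simp [ga, gb, e_of, e_mul]

theorem matZ_B : matZ B = !![1, 0; 2, 1] := by
  rw [matZ_eq, B_a, B_b]; simp [ga, gb, e_of, e_mul]

theorem matZ_inv (σ : MulAut F) (M : Matrix (Fin 2) (Fin 2) ℤ) (h : matZ σ * M = 1) :
    matZ σ⁻¹ = M := by
  rw [← mul_one (matZ σ⁻¹), ← h, ← mul_assoc, ← map_mul, inv_mul_cancel, map_one, one_mul]

/-- The automorphism `a ↦ b`, `b ↦ a⁻¹`. -/
def twS : MulAut F :=
  MonoidHom.toMulEquiv (FreeGroup.lift ![gb, ga⁻¹]) (FreeGroup.lift ![gb⁻¹, ga])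
    (hom_ext (by simp [ga, gb]) (by simp [ga, gb])) (hom_ext (by simp [ga, gb]) (by simp [ga, gb]))

/-- The automorphism `a ↦ a`, `b ↦ b⁻¹`. -/
def twI : MulAut F :=
  MonoidHom.toMulEquiv (FreeGroup.lift ![ga, gb⁻¹]) (FreeGroup.lift ![ga, gb⁻¹])
    (hom_ext (by simp [ga, gb]) (by simp [ga, gb])) (hom_ext (by simp [ga, gb]) (by simp [ga, gb]))

theorem surj_sl (N : SL(2, ℤ)) : ∃ σ, matZ σ = N.1 := by
  have h : N ∈ Subgroup.closure {ModularGroup.S, ModularGroup.T} := by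
    rw [SpecialLinearGroup.SL2Z_generators]; trivial
  induction h using Subgroup.closure_induction with
  | mem x hx =>
    rcases hx with rfl | rfl
    · exact ⟨twS, by rw [matZ_eq]; simp [twS, ga, gb, e_of, e_inv]⟩
    · exact ⟨twT, by rw [matZ_eq, twT_a, twT_b]; simp [ga, gb, e_of, e_mul]⟩
  | one => exact ⟨1, map_one _⟩
  | mul x y _ _ hx hy =>
    obtain ⟨σ, a⟩ := hx
    obtain ⟨τ, b⟩ := hy
    exact ⟨σ * τ, by rw [map_mul, a, b]; rfl⟩
  | inv x _ hx =>
    obtain ⟨σ, a⟩ := hx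
    exact ⟨σ⁻¹, matZ_inv _ _ (by rw [a]; exact congrArg Subtype.val (mul_inv_cancel x))⟩

theorem surj (M : GL (Fin 2) ℤ) : ∃ σ, matZ σ = M.val := by
  have hI : matZ twI = !![1, 0; 0, -1] := by rw [matZ_eq]; simp [twI, ga, gb, e_of, e_inv]
  rcases Int.units_eq_one_or (Matrix.GeneralLinearGroup.det M) with h | h
  · exact surj_sl ⟨M.val, congrArg Units.val h⟩
  · have h' : M.val.det = -1 := congrArg Units.val h
    obtain ⟨σ, hσ⟩ := surj_sl ⟨M.val * !![1, 0; 0, -1], by simp [h', Matrix.det_fin_two_of]⟩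
    refine ⟨σ * twI, ?_⟩
    rw [map_mul, hσ, hI]
    simp [mul_assoc, ← Matrix.one_fin_two]

theorem step (a b c d : ℤ) (h : ∃ w, matZ (ph w) = !![a, b; c, d]) :
    (∃ w, matZ (ph w) = !![a + 2 * c, b + 2 * d; c, d]) ∧
      (∃ w, matZ (ph w) = !![a - 2 * c, b - 2 * d; c, d]) ∧
      (∃ w, matZ (ph w) = !![a, b; c + 2 * a, d + 2 * b]) ∧
      ∃ w, matZ (ph w) = !![a, b; c - 2 * a, d - 2 * b] := by
  obtain ⟨w, hw⟩ := h
  have pa : ph ga = A := by simp [ph, ga]
  have pb : ph gb = B := by simp [ph, gb]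
  have ia : matZ A⁻¹ = !![1, -2; 0, 1] :=
    matZ_inv _ _ (by rw [matZ_A]; simp [← Matrix.one_fin_two])
  have ib : matZ B⁻¹ = !![1, 0; -2, 1] :=
    matZ_inv _ _ (by rw [matZ_B]; simp [← Matrix.one_fin_two])
  refine ⟨⟨ga * w, ?_⟩, ⟨ga⁻¹ * w, ?_⟩, ⟨gb * w, ?_⟩, gb⁻¹ * w, ?_⟩
  · rw [map_mul, map_mul, pa, matZ_A, hw, Matrix.mul_fin_two]; apply mat_eq <;> ring
  · rw [map_mul, map_mul, map_inv, pa, ia, hw, Matrix.mul_fin_two]; apply mat_eq <;> ring
  · rw [map_mul, map_mul, pb, matZ_B, hw, Matrix.mul_fin_two]; apply mat_eq <;> ring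
  · rw [map_mul, map_mul, map_inv, pb, ib, hw, Matrix.mul_fin_two]; apply mat_eq <;> ring

theorem sanov_up (k : ℤ) : ∃ w, matZ (ph w) = !![1, 2 * k; 0, 1] := by
  induction k using Int.induction_on with
  | zero => exact ⟨1, by simp [Matrix.one_fin_two]⟩
  | succ k ih =>
    have := (step _ _ _ _ ih).1
    rwa [mul_zero, add_zero, ← mul_add] at this
  | pred k ih =>
    have := (step _ _ _ _ ih).2.1
    rwa [mul_zero, sub_zero, ← mul_sub] at this

theorem sanov (n : ℕ) : ∀ a b c d : ℤ, a * d - b * c = 1 → a % 4 = 1 → b % 2 = 0 → c % 2 = 0 →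
    a.natAbs + c.natAbs ≤ n → ∃ w, matZ (ph w) = !![a, b; c, d] := by
  induction n with
  | zero => intro a b c d _ h _ _ hn; omega
  | succ n ih =>
    intro a b c d h1 h2 h3 h4 hn
    by_cases hc : c = 0
    · subst hc
      have ha : a = 1 := by
        rcases Int.eq_one_or_neg_one_of_mul_eq_one (by simpa using h1 : a * d = 1) with h | h
        · exact h
        · omega
      subst ha
      obtain rfl : d = 1 := by omega
      obtain ⟨k, rfl⟩ : ∃ k, b = 2 * k := ⟨b / 2, by omega⟩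
      exact sanov_up k
    by_cases hac : c.natAbs < a.natAbs
    · by_cases hs : (a - 2 * c).natAbs < a.natAbs
      · have := (step _ _ _ _ (ih (a - 2 * c) (b - 2 * d) c d (by linear_combination h1)
          (by omega) (by omega) h4 (by omega))).1
        rwa [sub_add_cancel, sub_add_cancel] at this
      · have := (step _ _ _ _ (ih (a + 2 * c) (b + 2 * d) c d (by linear_combination h1)
          (by omega) (by omega) h4 (by omega))).2.1
        rwa [add_sub_cancel_right, add_sub_cancel_right] at this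
    · by_cases hs : (c - 2 * a).natAbs < c.natAbs
      · have := (step _ _ _ _ (ih a b (c - 2 * a) (d - 2 * b) (by linear_combination h1)
          h2 h3 (by omega) (by omega))).2.2.1
        rwa [sub_add_cancel, sub_add_cancel] at this
      · have := (step _ _ _ _ (ih a b (c + 2 * a) (d + 2 * b) (by linear_combination h1)
          h2 h3 (by omega) (by omega))).2.2.2
        rwa [add_sub_cancel_right, add_sub_cancel_right] at this

theorem cong_word (σ : MulAut F) (h : ∀ i x, (e i (σ x) : ZMod 4) = e i x) :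
    ∃ w, matZ (ph w) = matZ σ := by
  have h' : ∀ i x, (4 : ℤ) ∣ e i x - e i (σ x) := fun i x =>
    (ZMod.intCast_eq_intCast_iff_dvd_sub _ _ 4).1 (h i x)
  have a := h' 0 ga
  have b := h' 0 gb
  have c := h' 1 ga
  have d := h' 1 gb
  have hd : (matZ σ).det = 1 ∨ (matZ σ).det = -1 :=
    Int.isUnit_iff.1 ((Matrix.isUnit_iff_isUnit_det _).1 (matZ.toHomUnits σ).isUnit)
  rw [matZ_eq] at hd ⊢
  rw [Matrix.det_fin_two_of] at hd
  simp only [ga, gb, e_of] at a b c d
  simp only [ga, gb] at hd ⊢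
  generalize e 0 (σ (FreeGroup.of 0)) = p at *
  generalize e 0 (σ (FreeGroup.of 1)) = q at *
  generalize e 1 (σ (FreeGroup.of 0)) = r at *
  generalize e 1 (σ (FreeGroup.of 1)) = s at *
  simp at a b c d
  obtain ⟨a, ha⟩ := a
  obtain ⟨b, rfl⟩ := b
  obtain ⟨c, rfl⟩ := c
  obtain ⟨d, hd'⟩ := d
  refine sanov _ _ _ _ _ (hd.resolve_right fun h => ?_) (by omega) (by omega) (by omega) le_rfl
  have : 2 = 4 * (a + d - 4 * a * d + 4 * b * c) := by
    have e1 : p = 1 - 4 * a := by omega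
    have e2 : s = 1 - 4 * d := by omega
    rw [e1, e2] at h
    linear_combination h
  omega

theorem main {R : Type} [CommRing R] [Finite R] {Q : Type} [Group Q]
    (H : Subgroup (GL (Fin 2) R)) (π : H →* Q) (hπ : Function.Surjective π)
    (Γ : Subgroup (GL (Fin 2) ℤ))
    (hΓ : ∀ M : GL (Fin 2) ℤ, M.val = !![1, 2; 0, 1] ∨ M.val = !![1, 0; 2, 1] → M ∈ Γ)
    (ρ : Γ →* Q) :
    ∃ K : Subgroup (F ⧸ derivedSeries F 3), K.Characteristic ∧ K.FiniteIndex ∧
      ∀ M : GL (Fin 2) ℤ, (∀ σ : MulAut F,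
        (∀ j, Abelianization.of (σ (FreeGroup.of j)) =
          ∏ i, Abelianization.of (FreeGroup.of i : F) ^ M.val i j) →
        ∃ g : F, ∀ x, (QuotientGroup.mk (σ x * (g * x * g⁻¹)⁻¹) : F ⧸ derivedSeries F 3) ∈ K) →
        ∃ h : M ∈ Γ, ρ ⟨M, h⟩ = 1 := by
  let a : Γ := ⟨matZ.toHomUnits A, hΓ _ (Or.inl matZ_A)⟩
  let b : Γ := ⟨matZ.toHomUnits B, hΓ _ (Or.inr matZ_B)⟩
  obtain ⟨X, hX⟩ := hπ (ρ a)
  obtain ⟨Y, hY⟩ := hπ (ρ b)
  obtain ⟨K, h1, h2, h3, h4⟩ := words X.1 Y.1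
  refine ⟨K, h1, h2, fun M hM => ?_⟩
  have hM' : ∀ σ : MulAut F, matZ σ = M.val → ∃ g : F, ∀ x,
      (QuotientGroup.mk (σ x * (g * x * g⁻¹)⁻¹) : F ⧸ derivedSeries F 3) ∈ K := by
    intro σ hσ
    refine hM σ fun j => ?_
    rw [comm_formula Abelianization.of, Fin.prod_univ_two, ← hσ]
    rfl
  obtain ⟨σ, hσ⟩ := surj M
  obtain ⟨g, hg⟩ := hM' σ hσ
  obtain ⟨w, hw⟩ := cong_word σ (h3 σ g hg)
  obtain ⟨g', hg'⟩ := hM' _ (hw.trans hσ)
  have k1 := h4 w g' hg'
  have e1 : Γ.subtype.comp (FreeGroup.lift ![a, b]) = matZ.toHomUnits.comp ph := by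
    apply hom_ext <;> simp [ga, gb, ph, a, b]
  have e2 : H.subtype.comp (FreeGroup.lift ![X, Y]) = FreeGroup.lift ![X.1, Y.1] := by
    apply hom_ext <;> simp [ga, gb]
  have e3 : π.comp (FreeGroup.lift ![X, Y]) = ρ.comp (FreeGroup.lift ![a, b]) := by
    apply hom_ext <;> simp [ga, gb, hX, hY]
  have f1 : ((FreeGroup.lift ![a, b] w : Γ) : GL (Fin 2) ℤ) = M :=
    (DFunLike.congr_fun e1 w).trans (Units.ext (hw.trans hσ))
  have f2 : FreeGroup.lift ![X, Y] w = 1 := Subtype.ext ((DFunLike.congr_fun e2 w).trans k1)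
  subst f1
  refine ⟨(FreeGroup.lift ![a, b] w).2, ?_⟩
  have := DFunLike.congr_fun e3 w
  rw [MonoidHom.comp_apply, f2, map_one] at this
  exact this.symm

end Pool.Agent.MP_6c678b_al.Rk
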